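import Pool.Agent.Q4.SPC.Stm3
import Pool.Agent.Q4.GLC.Cen

set_option autoImplicit false

open IsDedekindDomain NumberField Matrix Q4.GLC Q4.SPC

namespace Pool.Agent.Q109.SPC

section
variable {R : Type} [CommRing R] {n : ℕ}

theorem up_pow (T : Matrix (Fin n) (Fin n) R) (hT : Tᵀ = T) (k : ℕ) :
    (up T hT) ^ k = up ((k : R) • T) (by rw [transpose_smul, hT]) := by
  induction k with
  | zero =>
    rw [pow_zero, ← up_zero]
    congr 1
    simp
  | succ k ih =>
    rw [pow_succ, ih, up_mul]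
    congr 1
    push_cast
    rw [add_smul, one_smul]

theorem lo_pow (T : Matrix (Fin n) (Fin n) R) (hT : Tᵀ = T) (k : ℕ) :
    (lo T hT) ^ k = lo ((k : R) • T) (by rw [transpose_smul, hT]) := by
  induction k with
  | zero =>
    rw [pow_zero, ← lo_zero]
    congr 1
    simp
  | succ k ih =>
    rw [pow_succ, ih, lo_mul]
    congr 1
    push_cast
    rw [add_smul, one_smul]

theorem lvt_pow (i j : Fin n) (h : i ≠ j) (b : R) (k : ℕ) :
    (lvt i j h b) ^ k = lvt i j h ((k : R) * b) := by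
  induction k with
  | zero =>
    rw [pow_zero, ← lvt_zero i j h]
    congr 1
    simp
  | succ k ih =>
    rw [pow_succ, ih, lvt_mul]
    congr 1
    push_cast
    ring

end

theorem gs : GS := by
  intro hSA F _ _ n Γ hΓ s
  have hs := hSA F (_root_.Q211.GLC.sr1_field F) n s
  set m := Γ.normalCore.index with hm
  have hm0 : m ≠ 0 := Subgroup.FiniteIndex.index_ne_zero
  have hmF : (m : F) ≠ 0 := Nat.cast_ne_zero.2 hm0
  have hpow : ∀ h : GSp n F, h ^ m ∈ Γ := fun h =>
    Subgroup.normalCore_le Γ (Subgroup.pow_index_mem Γ.normalCore h)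
  have key : ∀ x : Sp n F, (∃ y : Sp n F, x = y ^ m) → inc x ∈ Γ := by
    rintro x ⟨y, rfl⟩
    rw [map_pow]
    exact hpow _
  induction hs using Subgroup.closure_induction with
  | mem x hx =>
    apply key
    rcases hx with ⟨S, hS, e⟩ | ⟨S, hS, e⟩ | ⟨i, j, h, c, e⟩
    · refine ⟨up ((m : F)⁻¹ • S) (by rw [transpose_smul, hS]), ?_⟩
      rw [up_pow]
      refine Subtype.ext ?_
      rw [e]
      change fromBlocks 1 _ 0 1 = fromBlocks 1 ((m : F) • ((m : F)⁻¹ • S)) 0 1
      rw [smul_smul, mul_inv_cancel₀ hmF]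
    · refine ⟨lo ((m : F)⁻¹ • S) (by rw [transpose_smul, hS]), ?_⟩
      rw [lo_pow]
      refine Subtype.ext ?_
      rw [e]
      change fromBlocks 1 0 _ 1 = fromBlocks 1 0 ((m : F) • ((m : F)⁻¹ • S)) 1
      rw [smul_smul, mul_inv_cancel₀ hmF]
    · refine ⟨lvt i j h ((m : F)⁻¹ * (1 * c)), ?_⟩
      rw [lvt_pow]
      refine Subtype.ext ?_
      rw [← mul_assoc, mul_inv_cancel₀ hmF, one_mul]
      rw [e]
      rfl
  | one => rw [map_one]; exact Γ.one_mem
  | mul x y _ _ hx hy => rw [map_mul]; exact Γ.mul_mem hx hy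
  | inv x _ hx => rw [map_inv]; exact Γ.inv_mem hx

end Pool.Agent.Q109.SPC
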