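import Pool.Agent.Q4.SPC.Stm3

set_option autoImplicit false

open IsDedekindDomain NumberField Matrix Q4.GLC Q4.SPC

namespace Pool.Agent.Q109.SPC

theorem gx_blocks {F : Type} [Field F] [NumberField F] {n M : ℕ} (u : Af F)
    (hu : DvdN M (u - 1)) :
    DvdS M ((fromBlocks 1 0 0 (u • 1) : Matrix (Fin n ⊕ Fin n) (Fin n ⊕ Fin n) (Af F)) - 1) := by
  intro i j
  rw [Matrix.sub_apply]
  rcases i with i | i <;> rcases j with j | j
  · have : (fromBlocks 1 0 0 (u • 1) : Matrix (Fin n ⊕ Fin n) (Fin n ⊕ Fin n) (Af F)) (Sum.inl i)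
        (Sum.inl j) - (1 : Matrix (Fin n ⊕ Fin n) (Fin n ⊕ Fin n) (Af F)) (Sum.inl i) (Sum.inl j)
        = 0 := by
      rw [← fromBlocks_one, fromBlocks_apply₁₁, fromBlocks_apply₁₁, sub_self]
    rw [this]
    exact dvdN_zero M
  · have : (fromBlocks 1 0 0 (u • 1) : Matrix (Fin n ⊕ Fin n) (Fin n ⊕ Fin n) (Af F)) (Sum.inl i)
        (Sum.inr j) - (1 : Matrix (Fin n ⊕ Fin n) (Fin n ⊕ Fin n) (Af F)) (Sum.inl i) (Sum.inr j)
        = 0 := by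
      rw [← fromBlocks_one, fromBlocks_apply₁₂, fromBlocks_apply₁₂, sub_self]
    rw [this]
    exact dvdN_zero M
  · have : (fromBlocks 1 0 0 (u • 1) : Matrix (Fin n ⊕ Fin n) (Fin n ⊕ Fin n) (Af F)) (Sum.inr i)
        (Sum.inl j) - (1 : Matrix (Fin n ⊕ Fin n) (Fin n ⊕ Fin n) (Af F)) (Sum.inr i) (Sum.inl j)
        = 0 := by
      rw [← fromBlocks_one, fromBlocks_apply₂₁, fromBlocks_apply₂₁, sub_self]
    rw [this]
    exact dvdN_zero M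
  · have : (fromBlocks 1 0 0 (u • 1) : Matrix (Fin n ⊕ Fin n) (Fin n ⊕ Fin n) (Af F)) (Sum.inr i)
        (Sum.inr j) - (1 : Matrix (Fin n ⊕ Fin n) (Fin n ⊕ Fin n) (Af F)) (Sum.inr i) (Sum.inr j)
        = if i = j then u - 1 else 0 := by
      rw [← fromBlocks_one, fromBlocks_apply₂₂, fromBlocks_apply₂₂, Matrix.smul_apply,
        Matrix.one_apply]
      split_ifs
      · rw [smul_eq_mul, mul_one]
      · rw [smul_zero, sub_zero]
    rw [this]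
    split_ifs
    · exact hu
    · exact dvdN_zero M

theorem gx : GX := by
  classical
  intro hGI hSI F _ _ n Γ hΓ hsa M hM
  have hsurj : Function.Surjective (nu : GSp n F →* Fˣ) := fun a => ⟨dnu n a, nu_dnu a⟩
  have hfi : (Γ.map (nu : GSp n F →* Fˣ)).FiniteIndex := by
    refine ⟨fun h0 => ?_⟩
    have h1 := Subgroup.index_map_dvd Γ hsurj
    rw [h0, zero_dvd_iff] at h1
    exact Subgroup.FiniteIndex.index_ne_zero h1
  obtain ⟨X₀, hX₀⟩ := hSI F (Γ.map (nu : GSp n F →* Fˣ)) hfi M hM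
  refine ⟨X₀.image (dnu n), fun g => ?_⟩
  obtain ⟨α, x, u, ⟨γ, hγ, hγα⟩, hx, hu1, hu2, ha⟩ := hX₀ (nu g)
  obtain ⟨M', hM', -, hconj⟩ := hGI F n (dnu n x)⁻¹ M hM
  have hnuγ : nu (dG F n γ) = Units.map (algebraMap F (Af F)).toMonoidHom α := by
    rw [← hγα]
    rfl
  have hs1 : nu ((dG F n γ)⁻¹ * g * (dnu n u)⁻¹ * (dnu n x)⁻¹) = 1 := by
    rw [map_mul, map_mul, map_mul, map_inv, map_inv, map_inv, nu_dnu, nu_dnu, hnuγ, ha]
    group
  obtain ⟨γ', hγ', hw⟩ := hsa _ hs1 M' hM'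
  refine ⟨γ * γ', Γ.mul_mem hγ hγ', dnu n x, Finset.mem_image_of_mem _ hx,
    ((dnu n x)⁻¹ * ((dG F n γ')⁻¹ * ((dG F n γ)⁻¹ * g * (dnu n u)⁻¹ * (dnu n x)⁻¹)) *
      ((dnu n x)⁻¹)⁻¹) * dnu n u, ?_, ?_⟩
  · refine Subgroup.mul_mem _ (hconj _ hw) ?_
    rw [mem_UG]
    refine ⟨⟨gx_blocks u.1 hu1, gx_blocks u⁻¹.1 hu2⟩, hu1, hu2⟩
  · rw [map_mul]
    group

end Pool.Agent.Q109.SPC
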